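import Mathlib
import Pool.Agent.H413R3.KGOpt

set_option autoImplicit false

open Filter Topology

namespace Pool.Agent.Results.MP_f8fa1d_co.DensityThreshold

open Pool.Agent.H413R3

/-- `A` contains a three-term geometric progression `a, a r, a r ^ 2` with real ratio `r > 1`. -/
def HasGP (A : Set ℕ) : Prop :=
  ∃ a ∈ A, ∃ r : ℝ, 1 < r ∧ (∃ b ∈ A, (b : ℝ) = a * r) ∧ ∃ c ∈ A, (c : ℝ) = a * r ^ 2

/-- `A` has natural density `d`: the quotient `|A ∩ [1, n)| / n` tends to `d`. -/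
def HasDensity (A : Set ℕ) (d : ℝ) : Prop :=
  Tendsto (fun n : ℕ => ((A ∩ Set.Ico 1 n).ncard : ℝ) / n) atTop (𝓝 d)

/-- The finite set `T` of positive integers contains no `a < b < c` with `b ^ 2 = a c`. -/
def Free (T : Finset ℕ) : Prop := ∀ a ∈ T, ∀ b ∈ T, ∀ c ∈ T, a < b → b ^ 2 ≠ a * c

instance : DecidablePred Free := fun T => by unfold Free; infer_instance

/-- The `K`-th finite optimisation problem: the maximum, over the sets `T` of divisors of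
`(∏_{p < K} p) ^ K` that contain no three-term geometric progression, of the rational number
`∏_{p < K} (1 - 1 / p) * ∑_{t ∈ T} 1 / t`. This is a computable function of `K`. -/
def opt (K : ℕ) : ℚ :=
  (((∏ p ∈ Nat.primesBelow K, p) ^ K).divisors.powerset.filter Free).sup' ⟨∅, by simp [Free]⟩
    (fun T => (∏ p ∈ Nat.primesBelow K, (1 - 1 / (p : ℚ))) * ∑ t ∈ T, 1 / (t : ℚ))

lemma hasGP_iff {A : Set ℕ} (hA : ∀ n ∈ A, 1 ≤ n) : HasGP A ↔ KG.HasGP 3 A := by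
  constructor
  · rintro ⟨a, ha, r, hr, ⟨b, hb, eb⟩, c, hc, ec⟩
    refine ⟨a, r, by exact_mod_cast hA a ha, hr, fun i hi => ?_⟩
    rcases (by omega : i = 0 ∨ i = 1 ∨ i = 2) with rfl | rfl | rfl
    · exact ⟨a, ha, by simp⟩
    · exact ⟨b, hb, by rw [eb]; simp⟩
    · exact ⟨c, hc, ec⟩
  · rintro ⟨a, r, ha, hr, h⟩
    obtain ⟨n0, m0, e0⟩ := h 0 (by norm_num)
    obtain ⟨n1, m1, e1⟩ := h 1 (by norm_num)
    obtain ⟨n2, m2, e2⟩ := h 2 (by norm_num)
    rw [pow_zero, mul_one] at e0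
    rw [pow_one] at e1
    exact ⟨n0, m0, r, hr, ⟨n1, m1, by rw [e0, e1]⟩, n2, m2, by rw [e0, e2]⟩

lemma opt_eq (K : ℕ) : (opt K : ℝ) = KG.m 3 K := by
  apply KG.m_eq le_rfl K (opt K) Free
  · intro T hT
    exact KG.free3_iff fun n hn => Nat.pos_of_mem_divisors (hT hn)
  · obtain ⟨T, hT, hv⟩ := Finset.exists_mem_eq_sup'
      (s := ((∏ p ∈ Nat.primesBelow K, p) ^ K).divisors.powerset.filter Free)
      ⟨∅, by simp [Free]⟩
      (fun T => (∏ p ∈ Nat.primesBelow K, (1 - 1 / (p : ℚ))) * ∑ t ∈ T, 1 / (t : ℚ))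
    rw [Finset.mem_filter, Finset.mem_powerset] at hT
    exact ⟨T, hT.1, hT.2, hv⟩
  · intro T hT hF
    exact Finset.le_sup'
      (fun T : Finset ℕ => (∏ p ∈ Nat.primesBelow K, (1 - 1 / (p : ℚ))) * ∑ t ∈ T, 1 / (t : ℚ))
      (Finset.mem_filter.2 ⟨Finset.mem_powerset.2 hT, hF⟩)

/-- There is a real number `s` such that: `s` is the limit of the computable sequence `opt K`, with
explicit error bounds; `s` is the largest natural density of a set of positive integers without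
three-term geometric progressions (in particular the supremum is attained); and the densities that
guarantee a three-term geometric progression are exactly the elements of `(s, 1]`. -/
theorem result : ∃ s : ℝ,
    Tendsto (fun K : ℕ => (opt K : ℝ)) atTop (𝓝 s) ∧
    (∀ K : ℕ, 2 ≤ K →
      (opt K : ℝ) - 1 / ((K : ℝ) - 1) ≤ s ∧ s ≤ (opt K : ℝ) + (K : ℝ) / 2 ^ (K + 1)) ∧
    IsGreatest {d : ℝ | ∃ A : Set ℕ, (∀ n ∈ A, 1 ≤ n) ∧ HasDensity A d ∧ ¬ HasGP A} s ∧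
    {α : ℝ | α ∈ Set.Icc (0 : ℝ) 1 ∧
      ∀ A : Set ℕ, (∀ n ∈ A, 1 ≤ n) → HasDensity A α → HasGP A} = Set.Ioc s 1 := by
  obtain ⟨s, h1, h2, ⟨⟨A, a1, a2, a3⟩, h3⟩, h4⟩ := KG.full (k := 3) le_rfl
  have hopt : (fun K : ℕ => (opt K : ℝ)) = KG.m 3 := funext opt_eq
  have hs0 : 0 ≤ s := KG.dens_nonneg a3
  refine ⟨s, by rw [hopt]; exact h1, fun K hK => by rw [opt_eq]; exact h2 K hK,
    ⟨⟨A, a1, KG.dens_iff_Ico.2 a3, fun h => a2 ((hasGP_iff a1).1 h)⟩, ?_⟩, ?_⟩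
  · rintro d ⟨B, b1, b2, b3⟩
    exact h3 ⟨B, b1, fun h => b3 ((hasGP_iff b1).2 h), KG.dens_iff_Ico.1 b2⟩
  · ext α
    simp only [Set.mem_ofPred_eq, Set.mem_Icc, Set.mem_Ioc]
    constructor
    · rintro ⟨⟨hα0, hα1⟩, h⟩
      refine ⟨(h4 α hα0).1 fun B b1 b2 => ?_, hα1⟩
      exact (hasGP_iff b1).1 (h B b1 (KG.dens_iff_Ico.2 b2))
    · rintro ⟨hs, hα1⟩
      have hα0 : 0 ≤ α := by linarith
      refine ⟨⟨hα0, hα1⟩, fun B b1 b2 => ?_⟩
      exact (hasGP_iff b1).2 ((h4 α hα0).2 hs B b1 (KG.dens_iff_Ico.1 b2))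

end Pool.Agent.Results.MP_f8fa1d_co.DensityThreshold
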